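import Pool.Agent.Helper382_X15.Sha
import Pool.Agent.Helper382_X15.Law

/-!
# The Tate-Shafarevich group over multiquadratic fields for a positive proportion of all the quadratic
# twists in two residue classes of the non-CM curve `X_0(15)`

`E_M : y² = x³ - 12987 M² x - 263466 M³` is the quadratic twist by `M` of `X_0(15)`, an elliptic curve without
complex multiplication, and `Cls` is the set of ALL the squarefree numbers `D ≡ 1` or `49` modulo `60`, with
no condition on the prime factors: a set of positive density `5 / (16 π²)`. Let `K = ℚ(√d_1, …, √d_n)` be a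
field of degree `2ⁿ` where the `d_i > 0` are in this class up to squares. The pair `(M, d)` is good if for all
the `2ⁿ` twists `E_{M ∏_{i ∈ T} d_i}` the group of the rational points is finite and `Ш(ℚ)` has no element of
order two. Let `c = ∏_{i ≥ 1} (1 - 2^{-i}) = 0.2887...`.
* For a good pair `Ш(E_M/K)[2^∞]` is finite and killed by `2ⁿ`, `E_M(K)` is finite, and the L-function of `E_M`
  over `K` is entire and not zero at the centre.
* Let `𝒩` be a finite set of numbers `M` of the class up to squares, the `E_M`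
  not isomorphic over `K`. Then for exactly the proportion `c ^ (|𝒩| 2ⁿ)` of the `D` of the class all the
  pairs `(M D, d)`, `M ∈ 𝒩`, are good. So for at least `(5 c ^ (|𝒩| 2ⁿ) / (16 π²) - ε) X` of the numbers `D ≤ X`
  all the groups `Ш(E_{MD}/K)[2^∞]`, `M ∈ 𝒩`, are finite.
* Almost all `D`: let `M_0, M_1, …` be a sequence of numbers of the class up to squares, the `E_{M_j}` pairwise
  not isomorphic over `K`, and `ψ(D) → ∞` as slowly as we please. For 100 percent of the `D` of the class there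
  is a `j < ψ(D)` with `Ш(E_{M_j D}/K)[2^∞]` finite and killed by `2ⁿ`, `E_{M_j D}(K)` finite and nonzero central
  value.

The joint law is in `Pool/Agent/H735X` (see `MP_696deb_nt/JointProportionX15`), the single curve is the project
X15 of helper757 (`MP_696deb_nt/TwoConverseX15`), the nonvanishing of `L(E_{MD}/K, 1)` for one curve is
helper735's `MP_50bb2e_nt/MultiquadraticX15`, the passage of the 2-primary part to the fields is from the
starting files `Pool/Agent/Y723/QT`. New here: `Ш`, several curves, the theorem on almost all `D`.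
-/

set_option autoImplicit false

open NumberField Filter Topology

namespace Pool.Agent.Results.MP_78d38b_nt.AllTwistsX15

open Pool.Agent.Results.MP_50bb2e_nt.MultiquadraticX15 (Cls UpTo InCls Ind RankZeroShaTwo GoodPair
  IsMultiquadratic OrderZero c num)
open Pool.Agent.Helper382_X15 (Curve)

/-- the elements of 2-power order form a finite group -/
def TwoPrimaryFinite (G : Type) [AddCommGroup G] : Prop :=
  {x : G | ∃ k : ℕ, (2 ^ k : ℕ) • x = 0}.Finite

/-- the elements of `2`-power order of `Ш(E_M/K)` are finite in number and killed by `2ⁿ`, `E_M(K)` is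
finite, and the `L`-function of `E_M` over `K` (without the Euler factors at `v ∣ 30 M m`) is entire and not
zero at the centre `s = 1` -/
def ShaZero (K : Type) [Field K] [NumberField K] (n : ℕ) (M m : ℤ) : Prop :=
  TwoPrimaryFinite (Pool.Agent.TH841.NF.D.Sha (Curve K M)) ∧
  (∀ (k : ℕ) (x : Pool.Agent.TH841.NF.D.Sha (Curve K M)),
    (2 ^ k : ℕ) • x = 0 → (2 ^ n : ℕ) • x = 0) ∧
  Finite (Curve K M).toAffine.Point ∧ OrderZero K M m

/-- the curves `E_M`, `M ∈ 𝒩`, are not isomorphic over `ℚ(√d_1, …, √d_n)` -/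
def NonIso {n : ℕ} (𝒩 : Finset ℤ) (d : Fin n → ℤ) : Prop :=
  ∀ M ∈ 𝒩, ∀ M' ∈ 𝒩, M ≠ M' → ∀ T : Finset (Fin n), ¬ IsSquare (M * M' * ∏ i ∈ T, d i)

theorem shaZero {n : ℕ} {d : Fin n → ℤ} {M : ℤ} (hd : Ind d) (h : GoodPair M d)
    (K : Type) [Field K] [NumberField K] (hK : IsMultiquadratic d K) :
    Module.finrank ℚ K = 2 ^ n ∧ ShaZero K n M (∏ i, d i) := by
  obtain ⟨h1, h2, h3⟩ := Pool.Agent.Results.MP_50bb2e_nt.MultiquadraticX15.field_zero hd h K hK
  obtain ⟨x, hx, hgen⟩ := hK
  obtain ⟨h4, h5⟩ := Pool.Agent.Helper382_X15.sha_field hd h K hx hgen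
  exact ⟨h1, h4, h5, h3, h2⟩

/-- **The Tate-Shafarevich group of the twists of `X_0(15)` over multiquadratic fields.** -/
theorem result :
    (∀ (n : ℕ) (M : ℤ) (d : Fin n → ℤ), Ind d → GoodPair M d →
      ∀ (K : Type) [Field K] [NumberField K], IsMultiquadratic d K →
        Module.finrank ℚ K = 2 ^ n ∧ ShaZero K n M (∏ i, d i)) ∧
    (∀ (n : ℕ) (𝒩 : Finset ℤ) (d : Fin n → ℤ), Ind d → (∀ M ∈ 𝒩, InCls M) → (∀ i, InCls (d i)) →
      NonIso 𝒩 d →
      Tendsto (fun X : ℕ => (num (fun D => ∀ M ∈ 𝒩, GoodPair (M * D) d) X : ℝ) /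
        (num (fun _ => True) X : ℝ)) atTop (𝓝 (c ^ (𝒩.card * 2 ^ n))) ∧
      ∀ (K : Type) [Field K] [NumberField K], IsMultiquadratic d K → ∀ ε : ℝ, 0 < ε →
        ∀ᶠ X : ℕ in atTop, (5 / (16 * Real.pi ^ 2) * c ^ (𝒩.card * 2 ^ n) - ε) * X ≤
          (num (fun D => ∀ M ∈ 𝒩, ShaZero K n (M * D) (∏ i, d i)) X : ℝ)) ∧
    (∀ (n : ℕ) (d : Fin n → ℤ) (M : ℕ → ℤ), Ind d → (∀ i, InCls (d i)) → (∀ j, InCls (M j)) →
      (∀ j j', j ≠ j' → ∀ T : Finset (Fin n), ¬ IsSquare (M j * M j' * ∏ i ∈ T, d i)) →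
      ∀ ψ : ℕ → ℕ, Tendsto ψ atTop atTop →
      ∀ (K : Type) [Field K] [NumberField K], IsMultiquadratic d K →
        Tendsto (fun X : ℕ => (num (fun D => ∃ j < ψ D, ShaZero K n (M j * D) (∏ i, d i)) X : ℝ) /
          (num (fun _ => True) X : ℝ)) atTop (𝓝 1)) ∧
    Tendsto (fun X : ℕ => (num (fun _ => True) X : ℝ) / X) atTop (𝓝 (5 / (16 * Real.pi ^ 2))) ∧
    0.2887 < c ∧ c < 0.2888 := by
  obtain ⟨-, -, -, g2, g3⟩ := Pool.Agent.Results.MP_50bb2e_nt.MultiquadraticX15.result
  refine ⟨fun n M d hd h K _ _ hK => shaZero hd h K hK, fun n 𝒩 d hd hM hc hne => ?_,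
    fun n d M hd hc hM hne ψ hψ K _ _ hK => ?_,
    Pool.Agent.Helper382_X15.num_dens, g2, g3⟩
  · have h1 := Pool.Agent.Helper382_X15.prop_fix hd hM hc hne
      (fun D => ∀ M ∈ 𝒩, GoodPair (M * D) d) ∅ (fun D _ _ => Iff.rfl)
    exact ⟨h1, fun K _ _ hK ε hε => (Pool.Agent.Helper382_X15.low (fun D _ h M hM =>
      (shaZero hd (h M hM) K hK).2) h1 hε).2⟩
  · have h1 := Pool.Agent.Helper382_X15.seq_almost hd hc M hM hne (by linarith) (by linarith) hψ
    refine Pool.Agent.Helper382_X15.almost_mono ∅ (fun D _ _ h => ?_) h1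
    obtain ⟨j, hj, hg⟩ := h
    exact ⟨j, hj, (shaZero hd hg K hK).2⟩

end Pool.Agent.Results.MP_78d38b_nt.AllTwistsX15
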