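import Mathlib
import Pool.Agent.Helper891_XS.Gj

/-!
# Curves with a rational point of order two over the layers of a tower

`E : y² = x³ + A x² + B x` with integers `A`, `B`, not both `4 ∣ A` and `16 ∣ B` (every elliptic
curve over `ℚ` with a rational point `T` of order two has such a model with `T = (0, 0)`), such that the
isogeny with kernel `{O, T}` has opposite types at `∞` and at `2`.  Such a curve may have any rank.

For `F ⊆ K`, where `K` is totally real of odd degree and odd narrow class number, `2` is inert in `K`,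
and `K/F` is a Galois extension in which no prime of `F` above a bad prime of `E` splits, the rank and
the 2-primary part of `Ш` are the same over `F` and over `K`.  The bad primes may split in `F`: there is no
condition on them in `F`.

So for *every* curve of the class, not exceptional at `2`, the rank and the 2-primary part of `Ш` are
constant in the cyclotomic `ℤ₃`-extension of `ℚ` from an explicit layer on: from the first layer `F` with
`9 [F : ℚ] ∤ p² - 1` for the bad primes `p ≠ 3`.  In particular the group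
`Ш(E)[2^∞]` is finite in all the layers above this one if it is finite in this one.

For the curves with `A = 1 mod 4` and `16 ∣ B` (and the isogenous ones) there is no condition on the
decomposition of `2` (unless `2` divides `B / 16`) and none on the degree of `F`: it is enough that `[K : F]`
is odd and that `K` is totally real of odd narrow class number.
-/

set_option autoImplicit false

namespace Pool.Agent.Results.MP_78d38b_nt.TwoTorsionTowers

open NumberField IsDedekindDomain

open Pool.Agent.Y682 (NCl)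

/-- `A`, `B` are the coefficients of a curve `E : y² = x³ + A x² + B x`, not both `4 ∣ A` and
`16 ∣ B`, with opposite types of the isogeny by `(0, 0)` at `∞` and at `2` : `B > 0` and
(`A < 0` or `A² < 4B`) holds if and only if `A` is odd or `4` does not divide `(A/2)² - B`. -/
def Pair (A B : ℤ) : Prop := B ≠ 0 ∧ A ^ 2 ≠ 4 * B ∧ ¬ (4 ∣ A ∧ 16 ∣ B) ∧
  ((0 < B ∧ (A < 0 ∨ A ^ 2 < 4 * B)) ↔ (¬ 2 ∣ A ∨ ¬ 4 ∣ (A / 2) ^ 2 - B))

/-- The exceptional case at `2`: `A = 3 mod 4` and `B = 2` or `3 mod 4`, or `A = 2 mod 8` and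
`(A/2)² - B = 8, 9, …, 15 mod 16`. -/
def Exc (A B : ℤ) : Prop := (A % 4 = 3 ∧ 2 ≤ B % 4) ∨ (A % 8 = 2 ∧ 8 ≤ ((A / 2) ^ 2 - B) % 16)

/-- `p` is odd and there are integers `d ≠ 0`, `α`, `β` with `A = d α`, `B = d² β` such that `β` and
`α² - 4 β` are not squares modulo any prime of `K` above `p`. -/
def NonSq (K : Type) [Field K] [NumberField K] (A B : ℤ) (p : ℕ) : Prop :=
  p ≠ 2 ∧ ∃ d α β : ℤ, d ≠ 0 ∧ A = d * α ∧ B = d ^ 2 * β ∧
    ∀ v : HeightOneSpectrum (𝓞 K), (p : 𝓞 K) ∈ v.asIdeal → ∀ x : 𝓞 K,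
      x ^ 2 - (β : 𝓞 K) ∉ v.asIdeal ∧ x ^ 2 - ((α ^ 2 - 4 * β : ℤ) : 𝓞 K) ∉ v.asIdeal

/-- No prime of `F` above `p` splits in `K`: there is only one prime of `K` above it. -/
def NoSplit (F K : Type) [Field F] [NumberField F] [Field K] [NumberField K] [Algebra F K]
    (p : ℕ) : Prop :=
  ∀ v w : HeightOneSpectrum (𝓞 K), (p : 𝓞 K) ∈ v.asIdeal → (p : 𝓞 K) ∈ w.asIdeal →
    v.under (𝓞 F) = w.under (𝓞 F) → v = w

/-- For the curve `E : y² = x³ + A x² + B x`: `Ш(E/K)[2^∞] ≃ Ш(E/F)[2^∞]` and
`rank E(K) = rank E(F)`. -/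
def Stable (F K : Type) [Field F] [NumberField F] [Field K] [NumberField K] (A B : ℤ) : Prop :=
  Nonempty
    (AddCommGroup.primaryComponent
        (Pool.Agent.TH841.NF.D.Sha (⟨0, A, 0, B, 0⟩ : WeierstrassCurve K)) 2 ≃+
      AddCommGroup.primaryComponent
        (Pool.Agent.TH841.NF.D.Sha (⟨0, A, 0, B, 0⟩ : WeierstrassCurve F)) 2) ∧
  Pool.Agent.TH841.NF.D.rk (⟨0, A, 0, B, 0⟩ : WeierstrassCurve K) =
    Pool.Agent.TH841.NF.D.rk (⟨0, A, 0, B, 0⟩ : WeierstrassCurve F)

/-- **Theorem.** Let `A`, `B` be the coefficients of a curve `E : y² = x³ + A x² + B x` with opposite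
types at `∞` and at `2`.
(1) Let `K/F` be a Galois extension of number fields, `K` totally real of odd degree and odd narrow class
number, such that the ideal `(2)` of the ring of integers of `K` is prime, and such that for each prime
factor `p` of `B (A² - 4B)` no prime of `F` above `p` splits in `K` or the condition `NonSq` holds. If
`3` divides the degree of `K`, suppose moreover that the pair is not exceptional at `2`.  Then
`Ш(E/K)[2^∞] ≃ Ш(E/F)[2^∞]` and `rank E(K) = rank E(F)`.
(2) If the pair is not exceptional at `2`, this holds for all layers `F ⊆ K` of the cyclotomic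
`ℤ₃`-extension of `ℚ` (subfields of odd degree of the `3 ^ (n + 1)`-th cyclotomic fields) such that each
prime factor `p` of `B (A² - 4B)` is `3`, or `9 [F : ℚ]` does not divide `p² - 1`, or `NonSq` holds.
(3) In particular, if the pair is not exceptional at `2`, this holds for all layers `F ⊆ K` with
`9 [F : ℚ] ≥ (B (A² - 4B))²`.
(4) Let `a = 1 mod 4`, `c > 0`, `a < 0` or `a² < 64 c`, `a² ≠ 64 c`, and let `E` be the curve
`y² = x³ + a x² + 16 c x` or the isogenous curve. Let `K/F` be a Galois extension of number fields of odd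
degree, `K` totally real of odd narrow class number, such that for each prime factor `p` of
`c (a² - 64 c)` no prime of `F` above `p` splits in `K` or the condition `NonSq` holds for `(a, 16 c)`. Then
`Ш(E/K)[2^∞] ≃ Ш(E/F)[2^∞]` and `rank E(K) = rank E(F)`. -/
theorem result :
    (∀ A B : ℤ, Pair A B →
      (∀ (F K : Type) [Field F] [NumberField F] [Field K] [NumberField K] [Algebra F K]
        [IsGalois F K] [IsTotallyReal K],
        Odd (Module.finrank ℚ K) → Odd (Nat.card (NCl K)) → (Ideal.span {(2 : 𝓞 K)}).IsPrime →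
        (3 ∣ Module.finrank ℚ K → ¬ Exc A B) →
        (∀ p : ℕ, p.Prime → (p : ℤ) ∣ B * (A ^ 2 - 4 * B) → NoSplit F K p ∨ NonSq K A B p) →
        Stable F K A B) ∧
      (¬ Exc A B → ∀ (n : ℕ) (M : Type) [Field M] [NumberField M]
        [IsCyclotomicExtension {3 ^ (n + 1)} ℚ M] (F K : IntermediateField ℚ M), F ≤ K →
        Odd (Module.finrank ℚ K) →
        (∀ p : ℕ, p.Prime → (p : ℤ) ∣ B * (A ^ 2 - 4 * B) →
          p = 3 ∨ ¬ 9 * Module.finrank ℚ F ∣ p ^ 2 - 1 ∨ NonSq K A B p) → Stable F K A B) ∧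
      (¬ Exc A B → ∀ (n : ℕ) (M : Type) [Field M] [NumberField M]
        [IsCyclotomicExtension {3 ^ (n + 1)} ℚ M] (F K : IntermediateField ℚ M), F ≤ K →
        Odd (Module.finrank ℚ K) →
        (B * (A ^ 2 - 4 * B)) ^ 2 ≤ 9 * (Module.finrank ℚ F : ℤ) → Stable F K A B)) ∧
    (∀ a c : ℤ, a % 4 = 1 → 0 < c → (a < 0 ∨ a ^ 2 < 64 * c) → a ^ 2 ≠ 64 * c →
      ∀ A B : ℤ, ((A = a ∧ B = 16 * c) ∨ (A = -2 * a ∧ B = a ^ 2 - 64 * c)) →
      ∀ (F K : Type) [Field F] [NumberField F] [Field K] [NumberField K] [Algebra F K]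
        [IsGalois F K] [IsTotallyReal K],
        Odd (Module.finrank F K) → Odd (Nat.card (NCl K)) →
        (∀ p : ℕ, p.Prime → (p : ℤ) ∣ c * (a ^ 2 - 64 * c) →
          NoSplit F K p ∨ NonSq K a (16 * c) p) → Stable F K A B) :=
  ⟨fun _ _ h =>
    ⟨fun F K _ _ _ _ _ _ _ hodd hcl h2 h3 hbad =>
      Pool.Agent.Helper891_XS.W.gen_one h F K hodd hcl h2 h3 hbad,
    fun hE n M _ _ _ F K hFK hodd hbad =>
      Pool.Agent.Helper891_XS.W.gen_two h hE n M F K hFK hodd hbad,
    fun hE n M _ _ _ F K hFK hodd hbig =>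
      Pool.Agent.Helper891_XS.W.gen_three h hE n M F K hFK hodd hbig⟩,
  fun _ _ ha hc hac hD _ _ hAB F K _ _ _ _ _ _ _ hodd hcl hbad =>
    Pool.Agent.Helper891_XS.O.gen_four ha hc hac hD hAB F K hodd hcl hbad⟩

end Pool.Agent.Results.MP_78d38b_nt.TwoTorsionTowers
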